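import Pool.Agent.Q136.BM.Stm

/-!
# Extremal invariant means
-/

set_option autoImplicit false
set_option linter.unusedSectionVars false

open Filter Topology

namespace Q110.BM

open Q136.BM

universe u

variable {G : Type u} [AddCommGroup G]

open Classical in
/-- truncation of a functional to the bounded functions -/
noncomputable def tr (m : (G → ℝ) → ℝ) : (G → ℝ) → ℝ := fun f => if Bd f then m f else 0

theorem tr_bd (m : (G → ℝ) → ℝ) {f : G → ℝ} (hf : Bd f) : tr m f = m f := if_pos hf

theorem tr_not (m : (G → ℝ) → ℝ) {f : G → ℝ} (hf : ¬ Bd f) : tr m f = 0 := if_neg hf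

/-- the compact set of the invariant means, normalised at the unbounded functions -/
def PP (G : Type u) [AddCommGroup G] : Set ((G → ℝ) → ℝ) :=
  {m | IsInvMean m ∧ ∀ f, ¬ Bd f → m f = 0}

theorem mk_mem {m : (G → ℝ) → ℝ}
    (h1 : ∀ f g : G → ℝ, Bd f → Bd g → m (fun x => f x + g x) = m f + m g)
    (h2 : ∀ (c : ℝ) (f : G → ℝ), Bd f → m (fun x => c * f x) = c * m f)
    (h3 : ∀ f : G → ℝ, Bd f → (∀ x, 0 ≤ f x) → 0 ≤ m f)
    (h4 : m (fun _ => 1) = 1)
    (h5 : ∀ (f : G → ℝ) (g : G), Bd f → m (fun x => f (x + g)) = m f) : tr m ∈ PP G := by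
  refine ⟨⟨⟨⟨?_, ?_, ?_⟩, ?_⟩, ?_⟩, fun f hf => tr_not m hf⟩
  · intro f g hf hg
    rw [tr_bd m hf, tr_bd m hg, tr_bd m (hf.add hg)]
    exact h1 f g hf hg
  · intro c f hf
    rw [tr_bd m hf, tr_bd m (hf.smul c)]
    exact h2 c f hf
  · intro f hf h0
    rw [tr_bd m hf]
    exact h3 f hf h0
  · rw [tr_bd m (Bd.const 1)]
    exact h4
  · intro f g hf
    rw [tr_bd m hf, tr_bd m (hf.comp (fun x => x + g))]
    exact h5 f g hf

theorem isClosed_PP : IsClosed (PP G) := by
  have e : PP G = {m | (∀ f g : G → ℝ, Bd f → Bd g → m (fun x => f x + g x) = m f + m g) ∧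
      (∀ (c : ℝ) (f : G → ℝ), Bd f → m (fun x => c * f x) = c * m f) ∧
      (∀ f : G → ℝ, Bd f → (∀ x, 0 ≤ f x) → 0 ≤ m f) ∧ m (fun _ => 1) = 1 ∧
      (∀ (f : G → ℝ) (g : G), Bd f → m (fun x => f (x + g)) = m f) ∧
      ∀ f, ¬ Bd f → m f = 0} := by
    ext m
    constructor
    · rintro ⟨h, h'⟩
      exact ⟨h.add, h.smul, h.nonneg, h.one, h.inv, h'⟩
    · rintro ⟨h1, h2, h3, h4, h5, h6⟩
      exact ⟨⟨⟨⟨h1, h2, h3⟩, h4⟩, h5⟩, h6⟩
  rw [e]
  simp only [Set.ofPred_and, Set.ofPred_forall]
  refine IsClosed.inter ?_ (IsClosed.inter ?_ (IsClosed.inter ?_ (IsClosed.inter ?_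
    (IsClosed.inter ?_ ?_))))
  · refine isClosed_iInter fun f => isClosed_iInter fun g => isClosed_iInter fun _ =>
      isClosed_iInter fun _ => ?_
    exact isClosed_eq (continuous_apply _) ((continuous_apply f).add (continuous_apply g))
  · refine isClosed_iInter fun c => isClosed_iInter fun f => isClosed_iInter fun _ => ?_
    exact isClosed_eq (continuous_apply _) (continuous_const.mul (continuous_apply _))
  · refine isClosed_iInter fun f => isClosed_iInter fun _ => isClosed_iInter fun _ => ?_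
    exact isClosed_le continuous_const (continuous_apply _)
  · exact isClosed_eq (continuous_apply _) continuous_const
  · refine isClosed_iInter fun f => isClosed_iInter fun g => isClosed_iInter fun _ => ?_
    exact isClosed_eq (continuous_apply _) (continuous_apply _)
  · refine isClosed_iInter fun f => isClosed_iInter fun _ => ?_
    exact isClosed_eq (continuous_apply _) continuous_const

theorem isCompact_PP : IsCompact (PP G) := by
  classical
  let C : (G → ℝ) → ℝ := fun f => if h : Bd f then h.choose else 0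
  have hK : IsCompact (Set.pi Set.univ (fun f : G → ℝ => Set.Icc (-C f) (C f))) :=
    isCompact_univ_pi (fun _ => isCompact_Icc)
  refine hK.of_isClosed_subset isClosed_PP ?_
  intro m hm f _
  by_cases h : Bd f
  · have h1 : C f = h.choose := dif_pos h
    show m f ∈ Set.Icc (-C f) (C f)
    rw [h1]
    exact abs_le.1 (hm.1.toIsMean.abs_le_of h.choose_spec)
  · have h1 : C f = 0 := dif_neg h
    show m f ∈ Set.Icc (-C f) (C f)
    rw [h1, hm.2 f h]
    simp

theorem pos_zero {Θ : (G → ℝ) → ℝ} (hΘ : IsPos Θ) (h1 : Θ (fun _ => 1) = 0) {f : G → ℝ}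
    (hf : Bd f) : Θ f = 0 := by
  obtain ⟨C, hC⟩ := hf
  have h2 := hΘ.abs_le ⟨C, hC⟩
  have h3 := hΘ.mono (Bd.abs ⟨C, hC⟩) (Bd.const C) hC
  have h4 := hΘ.smul C (fun _ => 1) (Bd.const 1)
  rw [h1, mul_zero] at h4
  simp only [mul_one] at h4
  rw [h4] at h3
  have h5 := abs_nonneg (Θ f)
  exact abs_eq_zero.1 (by linarith)

theorem erg : S_erg.{u} := by
  intro G _ m₀ A hm₀
  have hcomp : IsCompact (PP G) := isCompact_PP
  have hm₀' : tr m₀ ∈ PP G := mk_mem hm₀.add hm₀.smul hm₀.nonneg hm₀.one hm₀.inv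
  have hcont : Continuous (fun m : (G → ℝ) → ℝ => m (ind A)) := continuous_apply _
  obtain ⟨m1, hm1, hmax⟩ := hcomp.exists_isMaxOn ⟨_, hm₀'⟩ hcont.continuousOn
  have hmax' : ∀ m ∈ PP G, m (ind A) ≤ m1 (ind A) := fun m hm => hmax hm
  set F : Set ((G → ℝ) → ℝ) := PP G ∩ {m | m (ind A) = m1 (ind A)} with hF
  have hFc : IsCompact F := hcomp.inter_right (isClosed_eq hcont continuous_const)
  obtain ⟨m, hm⟩ := hFc.extremePoints_nonempty ⟨m1, hm1, rfl⟩
  rw [mem_extremePoints] at hm
  obtain ⟨⟨hmP, hmA⟩, hext⟩ := hm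
  refine ⟨m, hmP.1, ?_, ?_⟩
  · intro Θ hΘ hinv hle f hf
    set c : ℝ := Θ (fun _ => 1) with hc
    have hc0 : 0 ≤ c := hΘ.nonneg _ (Bd.const 1) (fun _ => zero_le_one)
    have hc1 : c ≤ 1 := by
      have := hle (fun _ => 1) (Bd.const 1) (fun _ => zero_le_one)
      rwa [hmP.1.one] at this
    -- the complementary functional
    have hΔ : IsPos (fun f => m f - Θ f) := by
      refine ⟨?_, ?_, ?_⟩
      · intro f g hf hg
        show m (fun x => f x + g x) - Θ (fun x => f x + g x) = _
        rw [hmP.1.add f g hf hg, hΘ.add f g hf hg]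
        ring
      · intro c f hf
        show m (fun x => c * f x) - Θ (fun x => c * f x) = _
        rw [hmP.1.smul c f hf, hΘ.smul c f hf]
        ring
      · intro f hf h0
        exact sub_nonneg.2 (hle f hf h0)
    rcases eq_or_lt_of_le hc0 with h0 | h0
    · rw [pos_zero hΘ h0.symm hf, ← h0, zero_mul]
    rcases eq_or_lt_of_le hc1 with h1 | h1
    · have h2 := pos_zero hΔ (by
        show m (fun _ => 1) - c = 0
        rw [hmP.1.one, h1, sub_self]) hf
      rw [h1, one_mul]
      exact (sub_eq_zero.1 h2).symm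
    have h1' : 0 < 1 - c := by linarith
    set p : (G → ℝ) → ℝ := tr (fun f => c⁻¹ * Θ f) with hp
    set q : (G → ℝ) → ℝ := tr (fun f => (1 - c)⁻¹ * (m f - Θ f)) with hq
    have hpP : p ∈ PP G := by
      apply mk_mem
      · intro f g hf hg
        rw [hΘ.add f g hf hg, mul_add]
      · intro a f hf
        rw [hΘ.smul a f hf]
        ring
      · intro f hf h0'
        exact mul_nonneg (inv_nonneg.2 hc0) (hΘ.nonneg f hf h0')
      · rw [← hc]
        exact inv_mul_cancel₀ h0.ne'
      · intro f g hf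
        rw [hinv f g hf]
    have hqP : q ∈ PP G := by
      apply mk_mem
      · intro f g hf hg
        have h := hΔ.add f g hf hg
        rw [h, mul_add]
      · intro a f hf
        have h := hΔ.smul a f hf
        rw [h]
        ring
      · intro f hf h0'
        exact mul_nonneg (inv_nonneg.2 h1'.le) (hΔ.nonneg f hf h0')
      · rw [← hc, hmP.1.one]
        exact inv_mul_cancel₀ h1'.ne'
      · intro f g hf
        rw [hinv f g hf, hmP.1.inv f g hf]
    have hcomb : c • p + (1 - c) • q = m := by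
      funext f
      show c * p f + (1 - c) * q f = m f
      by_cases hf : Bd f
      · rw [hp, hq, tr_bd _ hf, tr_bd _ hf]
        field_simp
        ring
      · rw [hp, hq, tr_not _ hf, tr_not _ hf, hmP.2 f hf]
        ring
    have hA : c * p (ind A) + (1 - c) * q (ind A) = m1 (ind A) := by
      have h2 := congrFun hcomb (ind A)
      have h3 : c * p (ind A) + (1 - c) * q (ind A) = m (ind A) := h2
      rw [h3]
      exact hmA
    have hpA := hmax' p hpP
    have hqA := hmax' q hqP
    have hpF : p (ind A) = m1 (ind A) := by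
      apply le_antisymm hpA
      by_contra hlt
      push Not at hlt
      nlinarith
    have hqF : q (ind A) = m1 (ind A) := by
      apply le_antisymm hqA
      by_contra hlt
      push Not at hlt
      nlinarith
    have hpm := (hext p ⟨hpP, hpF⟩ q ⟨hqP, hqF⟩ ⟨c, 1 - c, h0, h1', by ring, hcomb⟩).1
    have h2 := congrFun hpm f
    rw [hp, tr_bd _ hf] at h2
    rw [← h2]
    field_simp
  · have h2 := hmax' _ hm₀'
    rw [tr_bd m₀ (bd_ind A)] at h2
    have h3 : m (ind A) = m1 (ind A) := hmA
    rw [h3]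
    exact h2

end Q110.BM
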