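import Pool.Agent.Q136.BM.Stm

/-!
# Abelian groups have invariant means
-/

set_option autoImplicit false

open Filter Topology

namespace Q110.BM

open Q136.BM

universe u

variable {G : Type u} [AddCommGroup G]

/-- repeated averages -/
noncomputable def T (n : ℕ) : List G → (G → ℝ) → G → ℝ
  | [], f => f
  | g :: l, f => fun x => (∑ k ∈ Finset.range (n + 1), T n l f (x + k • g)) / ((n : ℝ) + 1)

theorem T_cons (n : ℕ) (g : G) (l : List G) (f : G → ℝ) (x : G) :
    T n (g :: l) f x = (∑ k ∈ Finset.range (n + 1), T n l f (x + k • g)) / ((n : ℝ) + 1) := rfl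

theorem T_add (n : ℕ) (l : List G) (f g : G → ℝ) (x : G) :
    T n l (fun x => f x + g x) x = T n l f x + T n l g x := by
  induction l generalizing x with
  | nil => rfl
  | cons a l ih =>
    simp only [T_cons, ih, Finset.sum_add_distrib, add_div]

theorem T_smul (n : ℕ) (l : List G) (c : ℝ) (f : G → ℝ) (x : G) :
    T n l (fun x => c * f x) x = c * T n l f x := by
  induction l generalizing x with
  | nil => rfl
  | cons a l ih =>
    simp only [T_cons, ih, ← Finset.mul_sum, mul_div_assoc]

theorem T_nonneg (n : ℕ) (l : List G) (f : G → ℝ) (h : ∀ x, 0 ≤ f x) (x : G) :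
    0 ≤ T n l f x := by
  induction l generalizing x with
  | nil => exact h x
  | cons a l ih =>
    rw [T_cons]
    exact div_nonneg (Finset.sum_nonneg (fun k _ => ih _)) (by positivity)

theorem T_one (n : ℕ) (l : List G) (x : G) : T n l (fun _ => 1) x = 1 := by
  induction l generalizing x with
  | nil => rfl
  | cons a l ih =>
    simp only [T_cons, ih, Finset.sum_const, Finset.card_range, nsmul_eq_mul, mul_one]
    push_cast
    exact div_self (by positivity)

theorem avg_bound (n : ℕ) (u : ℕ → ℝ) (C : ℝ) (h : ∀ k, |u k| ≤ C) :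
    |(∑ k ∈ Finset.range (n + 1), u k) / ((n : ℝ) + 1)| ≤ C := by
  have hn : (0 : ℝ) < (n : ℝ) + 1 := by positivity
  rw [abs_div, abs_of_pos hn, div_le_iff₀ hn]
  calc |∑ k ∈ Finset.range (n + 1), u k| ≤ ∑ k ∈ Finset.range (n + 1), |u k| :=
        Finset.abs_sum_le_sum_abs _ _
    _ ≤ ∑ k ∈ Finset.range (n + 1), C := Finset.sum_le_sum (fun k _ => h k)
    _ = C * ((n : ℝ) + 1) := by
      rw [Finset.sum_const, Finset.card_range, nsmul_eq_mul]
      push_cast
      ring

theorem T_bound (n : ℕ) (l : List G) (f : G → ℝ) (C : ℝ) (h : ∀ x, |f x| ≤ C) (x : G) :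
    |T n l f x| ≤ C := by
  induction l generalizing x with
  | nil => exact h x
  | cons a l ih => exact avg_bound n _ C (fun k => ih _)

theorem T_shift (n : ℕ) (l : List G) (f : G → ℝ) (g x : G) :
    T n l (fun x => f (x + g)) x = T n l f (x + g) := by
  induction l generalizing x with
  | nil => rfl
  | cons a l ih =>
    simp only [T_cons, ih]
    congr 1
    refine Finset.sum_congr rfl (fun k _ => ?_)
    rw [add_right_comm]

theorem T_inv (n : ℕ) (l : List G) (f : G → ℝ) (C : ℝ) (h : ∀ x, |f x| ≤ C) (g : G)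
    (hg : g ∈ l) (x : G) : |T n l f (x + g) - T n l f x| ≤ 2 * C / ((n : ℝ) + 1) := by
  have hn : (0 : ℝ) < (n : ℝ) + 1 := by positivity
  induction l generalizing x with
  | nil => simp at hg
  | cons a l ih =>
    rcases List.mem_cons.1 hg with rfl | hg'
    · simp only [T_cons]
      rw [← sub_div, ← Finset.sum_sub_distrib]
      have e : ∑ k ∈ Finset.range (n + 1), (T n l f (x + g + k • g) - T n l f (x + k • g)) =
          T n l f (x + (n + 1) • g) - T n l f (x + 0 • g) := by
        rw [← Finset.sum_range_sub (fun k : ℕ => T n l f (x + k • g)) (n + 1)]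
        refine Finset.sum_congr rfl (fun k _ => ?_)
        show T n l f (x + g + k • g) - _ = T n l f (x + (k + 1) • g) - T n l f (x + k • g)
        rw [add_smul, one_smul, add_assoc, add_comm g (k • g)]
      rw [e, abs_div, abs_of_pos hn]
      refine div_le_div_of_nonneg_right ?_ hn.le
      have h1 := T_bound n l f C h (x + (n + 1) • g)
      have h2 := T_bound n l f C h (x + 0 • g)
      calc |T n l f (x + (n + 1) • g) - T n l f (x + 0 • g)|
          ≤ |T n l f (x + (n + 1) • g)| + |T n l f (x + 0 • g)| := abs_sub _ _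
        _ ≤ 2 * C := by linarith
    · simp only [T_cons]
      rw [← sub_div, ← Finset.sum_sub_distrib]
      apply avg_bound
      intro k
      rw [add_right_comm]
      exact ih hg' _

theorem exists_mean : S_exists.{u} := by
  intro G _
  classical
  let U : Ultrafilter (Finset G × ℕ) := Ultrafilter.of (atTop : Filter (Finset G × ℕ))
  have hU : (U : Filter (Finset G × ℕ)) ≤ atTop := Ultrafilter.of_le _
  let A : Finset G × ℕ → (G → ℝ) → ℝ := fun i f => T i.2 i.1.toList f 0
  have hlim : ∀ f : G → ℝ, Bd f → ∃ a : ℝ, Tendsto (fun i => A i f) (U : Filter _) (𝓝 a) := by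
    rintro f ⟨C, hC⟩
    have hmem : ∀ i, A i f ∈ Set.Icc (-C) C := fun i =>
      abs_le.1 (T_bound i.2 i.1.toList f C hC 0)
    have hcomp : IsCompact (Set.Icc (-C) C) := isCompact_Icc
    obtain ⟨a, -, ha⟩ := hcomp.ultrafilter_le_nhds' (U.map (fun i => A i f))
      (by
        rw [Ultrafilter.mem_map]
        exact Filter.univ_mem' hmem)
    exact ⟨a, ha⟩
  choose! L hL using hlim
  refine ⟨L, ⟨⟨⟨?_, ?_, ?_⟩, ?_⟩, ?_⟩⟩
  · intro f g hf hg
    refine tendsto_nhds_unique (hL _ (hf.add hg)) ?_
    refine ((hL f hf).add (hL g hg)).congr (fun i => ?_)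
    exact (T_add i.2 i.1.toList f g 0).symm
  · intro c f hf
    refine tendsto_nhds_unique (hL _ (hf.smul c)) ?_
    refine ((hL f hf).const_mul c).congr (fun i => ?_)
    exact (T_smul i.2 i.1.toList c f 0).symm
  · intro f hf h0
    exact ge_of_tendsto' (hL f hf) (fun i => T_nonneg i.2 i.1.toList f h0 0)
  · refine tendsto_nhds_unique (hL _ (Bd.const 1)) ?_
    refine tendsto_const_nhds.congr (fun i => ?_)
    exact (T_one i.2 i.1.toList 0).symm
  · intro f g hf
    obtain ⟨C, hC⟩ := hf
    have h1 := (hL _ (Bd.comp ⟨C, hC⟩ (fun x => x + g))).sub (hL f ⟨C, hC⟩)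
    have h2 : Tendsto (fun i : Finset G × ℕ => 2 * C / ((i.2 : ℝ) + 1)) (U : Filter _) (𝓝 0) := by
      have h3 : Tendsto (fun n : ℕ => 2 * C / ((n : ℝ) + 1)) atTop (𝓝 0) := by
        apply Tendsto.div_atTop tendsto_const_nhds
        exact tendsto_atTop_add_const_right _ _ tendsto_natCast_atTop_atTop
      have h4 : Tendsto (Prod.snd : Finset G × ℕ → ℕ) (U : Filter _) atTop := by
        have h5 : Tendsto (Prod.snd : Finset G × ℕ → ℕ) atTop atTop := by
          rw [← prod_atTop_atTop_eq]
          exact tendsto_snd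
        exact h5.mono_left hU
      exact h3.comp h4
    have h3 : ∀ᶠ i : Finset G × ℕ in (U : Filter _),
        ‖A i (fun x => f (x + g)) - A i f‖ ≤ 2 * C / ((i.2 : ℝ) + 1) := by
      have h4 : ∀ᶠ i : Finset G × ℕ in atTop, (({g} : Finset G), 0) ≤ i := eventually_ge_atTop _
      filter_upwards [hU h4] with i hi
      have h5 : g ∈ i.1.toList := by
        rw [Finset.mem_toList]
        exact hi.1 (Finset.mem_singleton_self g)
      have h6 := T_inv i.2 i.1.toList f C hC g h5 0
      rw [Real.norm_eq_abs]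
      show |T i.2 i.1.toList (fun x => f (x + g)) 0 - T i.2 i.1.toList f 0| ≤ _
      rw [T_shift]
      exact h6
    have h4 := squeeze_zero_norm' h3 h2
    have h5 := tendsto_nhds_unique h1 h4
    exact sub_eq_zero.1 h5

end Q110.BM
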