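import Pool.Agent.Q75.BM.Stm

/-!
# Project BM (helper75), job NC: the representations are not all conjugate
-/

set_option autoImplicit false

namespace Pool.Agent.Q110.BM

open Pool.Agent.Q75.BM

theorem rho_gl (l : ℂ) (s : Ltr) : rho l (gl s) = pr (mat s l) := rfl

theorem t_NC : Pool.Agent.Q75.BM.S_NR → Pool.Agent.Q75.BM.S_NC := by
  intro hNR
  refine ⟨0, 1, ?_⟩
  rintro ⟨P, hP⟩
  obtain ⟨Q, rfl⟩ : ∃ Q : SL, pr Q = P := QuotientGroup.mk'_surjective _ P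
  have h := hP (gl Ltr.a)
  rw [rho_gl, rho_gl, ← map_mul, ← map_inv, ← map_mul] at h
  have h1 : Matrix.trace (Q * mat Ltr.a 0 * Q⁻¹ : SL).1 = 0 := by
    have h2 : (Q * mat Ltr.a 0 * Q⁻¹ : SL).1 = (Q : SL).1 * ((mat Ltr.a 0 * Q⁻¹ : SL)).1 := by
      rw [mul_assoc]
      rfl
    rw [h2, Matrix.trace_mul_comm]
    have h3 : (mat Ltr.a 0 * Q⁻¹ : SL).1 * (Q : SL).1 = (mat Ltr.a 0 : SL).1 := by
      have h4 : (mat Ltr.a 0 * Q⁻¹ : SL) * Q = mat Ltr.a 0 := by group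
      exact congrArg (fun M : SL => M.1) h4
    rw [h3]
    simp [mat, mA, Matrix.trace_fin_two]
  have h5 : Matrix.trace (mat Ltr.a 1 : SL).1 = 1 := by
    simp [mat, mA, Matrix.trace_fin_two]
  rcases hNR.2 _ _ h with h6 | h6
  · rw [h6, h1] at h5
    exact zero_ne_one h5
  · rw [h6, Matrix.trace_neg, h1, neg_zero] at h5
    exact zero_ne_one h5

end Pool.Agent.Q110.BM
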