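import Pool.Agent.Q75.BM.Stm

/-!
# Project BM (helper75), job NE: the representations are not elementary
-/

set_option autoImplicit false

namespace Pool.Agent.Q110.BM.NE

open Pool.Agent.Q75.BM

theorem mD_pow (n : ℕ) : (mD ^ n : SL).1 = !![1, (n : ℂ); 0, 1] := by
  induction n with
  | zero =>
    ext i j
    fin_cases i <;> fin_cases j <;> simp
  | succ n ih =>
    have h : (mD ^ (n + 1) : SL).1 = (mD ^ n : SL).1 * (mD : SL).1 := by
      rw [pow_succ]
      rfl
    rw [h, ih]
    ext i j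
    fin_cases i <;> fin_cases j <;> simp [mD, Matrix.mul_apply, Fin.sum_univ_two]
    ring

theorem rho_pow (l : ℂ) (n : ℕ) : rho l (gl Ltr.d ^ n) = pr (mD ^ n) := by
  rw [map_pow, map_pow]
  rfl

theorem t_NE : Pool.Agent.Q75.BM.S_NR → Pool.Agent.Q75.BM.S_NE := by
  intro hNR l
  constructor
  · intro C
    obtain ⟨n, hn⟩ := exists_nat_gt C
    refine ⟨gl Ltr.d ^ n, hn.trans_le ?_⟩
    rw [rho_pow, hNR.1]
    unfold hs
    apply Real.le_sqrt_of_sq_le
    have h1 : ‖(mD ^ n : SL).1 0 1‖ ^ 2 = (n : ℝ) ^ 2 := by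
      rw [mD_pow]
      simp
    rw [← h1]
    calc ‖(mD ^ n : SL).1 0 1‖ ^ 2 ≤ ∑ j, ‖(mD ^ n : SL).1 0 j‖ ^ 2 :=
          Finset.single_le_sum (f := fun j => ‖(mD ^ n : SL).1 0 j‖ ^ 2)
            (fun j _ => by positivity) (Finset.mem_univ 1)
      _ ≤ ∑ i, ∑ j, ‖(mD ^ n : SL).1 i j‖ ^ 2 :=
          Finset.single_le_sum (f := fun i => ∑ j, ‖(mD ^ n : SL).1 i j‖ ^ 2)
            (fun i _ => by positivity) (Finset.mem_univ 0)
  · intro F hF hne hdim hinv
    have key : ∀ L ∈ F, ∀ v ∈ L, v 1 = 0 := by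
      intro L hL
      obtain ⟨⟨v, hvL⟩, hv0, hv⟩ := finrank_eq_one_iff'.1 (hdim L hL)
      have hv0' : v ≠ 0 := by
        intro h
        exact hv0 (Subtype.ext h)
      have hmem : ∀ n : ℕ, L.map (Matrix.toLin' (mD ^ n : SL).1) ∈ F := by
        intro n
        exact hinv (gl Ltr.d ^ n) (mD ^ n) (rho_pow l n).symm L hL
      have : Finite F := hF
      obtain ⟨m, n, hmn, heq⟩ := Finite.exists_ne_map_eq_of_infinite
        (fun n : ℕ => (⟨L.map (Matrix.toLin' (mD ^ n : SL).1), hmem n⟩ : F))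
      have heq' : L.map (Matrix.toLin' (mD ^ m : SL).1) = L.map (Matrix.toLin' (mD ^ n : SL).1) :=
        congrArg Subtype.val heq
      have h1 : Matrix.toLin' (mD ^ m : SL).1 v ∈ L.map (Matrix.toLin' (mD ^ n : SL).1) := by
        rw [← heq']
        exact Submodule.mem_map_of_mem hvL
      obtain ⟨u, hu, hu2⟩ := Submodule.mem_map.1 h1
      obtain ⟨c, hc⟩ := hv ⟨u, hu⟩
      have hc' : c • v = u := congrArg Subtype.val hc
      rw [← hc', mD_pow, mD_pow] at hu2
      have e0 := congrFun hu2 0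
      have e1 := congrFun hu2 1
      simp [Matrix.toLin'_apply, Matrix.mulVec, dotProduct, Fin.sum_univ_two] at e0 e1
      have hv1 : v 1 = 0 := by
        by_contra hne1
        have hc1 : c = 1 := by
          have h5 : (c - 1) * v 1 = 0 := by linear_combination e1
          exact sub_eq_zero.1 ((mul_eq_zero.1 h5).resolve_right hne1)
        rw [hc1] at e0
        have h2 : ((n : ℂ) - m) * v 1 = 0 := by linear_combination e0
        rcases mul_eq_zero.1 h2 with h3 | h3
        · apply hmn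
          have h4 : (n : ℂ) = m := sub_eq_zero.1 h3
          exact (Nat.cast_injective h4).symm
        · exact hne1 h3
      intro w hw
      obtain ⟨c', hc2⟩ := hv ⟨w, hw⟩
      have hc3 : c' • v = w := congrArg Subtype.val hc2
      rw [← hc3]
      simp [hv1]
    obtain ⟨L, hL⟩ := hne
    obtain ⟨⟨v, hvL⟩, hv0, hv⟩ := finrank_eq_one_iff'.1 (hdim L hL)
    have hv1 := key L hL v hvL
    have h2 : L.map (Matrix.toLin' (mA l : SL).1) ∈ F := hinv (gl Ltr.a) (mA l) rfl L hL
    have h3 := key _ h2 (Matrix.toLin' (mA l : SL).1 v) (Submodule.mem_map_of_mem hvL)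
    simp [mA, Matrix.toLin'_apply, Matrix.mulVec, dotProduct, Fin.sum_univ_two] at h3
    apply hv0
    apply Subtype.ext
    funext i
    fin_cases i
    · exact h3
    · exact hv1

end Pool.Agent.Q110.BM.NE
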